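import Pool.Agent.H.MP_743c94_lc.A

set_option autoImplicit false

namespace Pool.Agent.Results.MP_743c94_lc.Yes

/-- initial segment -/
def pr (p : ℕ → Bool) (k : ℕ) : List Bool := (List.range k).map p

/-- The Turing functional with set of rules `W` sends `p` to the point `q`. -/
def Maps (W : List Bool × ℕ × Bool → Prop) (p q : ℕ → Bool) : Prop := ∀ n v, (∃ k, W (pr p k, n, v)) ↔ q n = v

/-- pairing -/
def jn (p q : ℕ → Bool) (n : ℕ) : Bool := if n % 2 = 0 then p (n / 2) else q (n / 2)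

/-- A problem; its domain is the set of points with a nonempty set of solutions. -/
abbrev Pb := (ℕ → Bool) → Set (ℕ → Bool)

/-- Weihrauch reducibility. -/
def Le (f g : Pb) : Prop := ∃ H K, REPred H ∧ REPred K ∧ ∀ G : (ℕ → Bool) → ℕ → Bool, (∀ x, (g x).Nonempty → G x ∈ g x) →
  ∀ p, (f p).Nonempty → ∃ x, Maps K p x ∧ (g x).Nonempty ∧ ∃ y ∈ f p, Maps H (jn p (G x)) y

def Prd (f g : Pb) : Pb := fun p => {q | (fun n => q (2 * n)) ∈ f (fun n => p (2 * n)) ∧ (fun n => q (2 * n + 1)) ∈ g fun n => p (2 * n + 1)}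

def NON : Pb := fun p => {q | ¬TuringReducible (fun n => Part.some (q n).toNat) fun n => Part.some (p n).toNat}

def LLPO : Pb := fun p => {q | (∀ m n, p m = true → p n = true → m = n) ∧ ∃ i : Bool, (q = fun _ => i) ∧ ∀ n, p (2 * n + i.toNat) = false}

def RT : Pb := fun c => {h | {n | h n = true}.Infinite ∧ ∃ i, ∀ x y, x < y → h x = true → h y = true → c (Nat.pair x y) = i}

open Pool.Agent.H.MP_743c94_lc Pool.Agent.Lib.helper21.PR in
theorem result : Le (Prd NON LLPO) RT := by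
  refine ⟨fun z => z.2.1 % 2 = 0 ∧ z.1[z.2.1 + 1]? = some z.2.2 ∨ z.2.1 % 2 = 1 ∧ ∃ y < z.1.length, ∃ x < y, 4 * y + 1 < z.1.length ∧
    z.1.getD (2 * x + 1) false = true ∧ z.1.getD (2 * y + 1) false = true ∧
      ans ((List.range (2 * y)).map fun i => z.1.getD (2 * i) false) x y = z.2.2,
    fun z => z.1.length = 2 * z.2.1.unpair.2 ∧ col z.1 z.2.1.unpair.1 z.2.1.unpair.2 = z.2.2, RE.re (r_prim (by fun_prop)),
    RE.re (r_prim (by fun_prop)), fun G a p ⟨_, _, r, _⟩ => ?_⟩
  have b : (RT fun n => C p n.unpair.1 n.unpair.2).Nonempty := by simpa [RT, Set.Nonempty] using ramsey (C p)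
  refine ⟨_, fun n v => ⟨fun ⟨k, c, d⟩ => ?_, fun c => ⟨2 * n.unpair.2, by simp [pr], c⟩⟩, b, ?_⟩
  · obtain rfl : k = 2 * n.unpair.2 := by simpa [pr] using c
    exact d
  obtain ⟨c, i, d⟩ := a _ b
  generalize G _ = h at c d
  simp only [Nat.unpair_pair] at d
  obtain ⟨j, e, f⟩ := llpo p h r c d
  have g : ∀ (p q : ℕ → Bool) n, jn p q (2 * n) = p n ∧ jn p q (2 * n + 1) = q n := fun p q n => by
    simp [jn, Nat.mul_add_div]
  have l : ∀ k y, 4 * y + 1 < k → ((List.range (2 * y)).map fun i => (pr (jn p h) k).getD (2 * i) false) = pr p (2 * y) :=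
    fun k y m => List.map_congr_left fun i n => (pr_getD (by have := List.mem_range.1 n; omega)).trans (g ..).1
  have o : ∀ k x, 2 * x + 1 < k → (pr (jn p h) k).getD (2 * x + 1) false = h x := fun k x m => (pr_getD m).trans (g ..).2
  refine ⟨jn h fun _ => j, ⟨by simpa only [NON, g, Set.mem_ofPred_eq] using non p h r c d, r, j, funext fun n => (g ..).2, e⟩, fun n v => ?_⟩
  obtain ⟨n, rfl | rfl⟩ := n.even_or_odd'
  · rw [(g ..).1]
    refine ⟨fun ⟨k, m⟩ => ?_, fun m => ⟨2 * n + 2, .inl ⟨by simp, by simp [pr, g, m]⟩⟩⟩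
    obtain ⟨_, m⟩ := List.getElem?_eq_some_iff.1 (m.resolve_right fun m => by have : 2 * n % 2 = 1 := m.1; omega).2
    simpa [pr, g] using m
  · rw [(g ..).2]
    refine ⟨fun ⟨k, m⟩ => ?_, fun m => ?_⟩
    · obtain ⟨-, y, -, x, s, t, u, w, m⟩ := m.resolve_left fun m => by have : (2 * n + 1) % 2 = 0 := m.1; omega
      replace t : 4 * y + 1 < k := by simpa [pr] using t
      dsimp only at u w m
      rw [o k _ (by omega)] at u w
      rw [← m, l k y t]
      exact (f x y s u w).symm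
    · obtain ⟨x, s⟩ := c.nonempty
      obtain ⟨y, t, u⟩ := c.exists_gt x
      refine ⟨4 * y + 2, .inr ⟨by dsimp only; omega, y, by simp [pr]; omega, x, u, by simp [pr], (o _ _ (by omega)).trans s,
        (o _ _ (by omega)).trans t, ?_⟩⟩
      rw [l _ y (by omega)]
      exact (f x y u s t).trans m

end Pool.Agent.Results.MP_743c94_lc.Yes
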